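import Pool.Agent.Helper46.C2.St

/-!
# Project C2 (MP_b3ce06_al), module LF: the ring is finite
-/

set_option autoImplicit false

namespace Pool.Agent.Helper78.C2

open Pool.Agent.Helper46.C2

theorem hLF : StLF := by
  intro k L _ x h
  have hk := h.k2
  have hN : ∀ y : L, y ∈ AddSubgroup.closure (Set.range fun i : Fin k => (x : L) ^ (i : ℕ)) := by
    refine h.gn _ ?_ ?_
    · exact AddSubgroup.subset_closure ⟨⟨0, by omega⟩, by simp⟩
    · intro y hy
      induction hy using AddSubgroup.closure_induction with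
      | mem z hz =>
        obtain ⟨i, rfl⟩ := hz
        have h1 : (x : L) * (x : L) ^ (i : ℕ) = (x : L) ^ ((i : ℕ) + 1) := by
          rw [pow_succ, mul_comm]
        simp only [h1]
        by_cases hi : (i : ℕ) + 1 < k
        · exact AddSubgroup.subset_closure ⟨⟨(i : ℕ) + 1, hi⟩, rfl⟩
        · have h2 : (i : ℕ) + 1 = k := by have := i.2; omega
          rw [h2, h.xk]
          exact add_mem (AddSubgroup.subset_closure ⟨⟨1, by omega⟩, by simp⟩)
            (AddSubgroup.subset_closure ⟨⟨0, by omega⟩, by simp⟩)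
      | zero => rw [mul_zero]; exact zero_mem _
      | add a b _ _ ha hb => rw [mul_add]; exact add_mem ha hb
      | neg a _ ha => rw [mul_neg]; exact neg_mem ha
  have hfg : AddGroup.FG L := by
    rw [AddGroup.fg_iff]
    exact ⟨_, (AddSubgroup.eq_top_iff' _).2 hN, Set.finite_range _⟩
  have hmf : Module.Finite ℤ L := Module.Finite.iff_addGroup_fg.2 hfg
  refine AddCommGroup.finite_of_fg_isAddTorsion L fun y => ?_
  rw [isOfFinAddOrder_iff_nsmul_eq_zero]
  refine ⟨2, two_pos, ?_⟩
  rw [nsmul_eq_mul, Nat.cast_ofNat, h.two, zero_mul]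

end Pool.Agent.Helper78.C2
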